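import Pool.Agent.Helper19.Germ.Defs

/-!
R1 of helper19's blueprint for MP_91c48b_an: the group of germs and word length (helper89).
-/

open Filter Topology Set

namespace Pool.Agent.Germ

/-! ## The group of germs -/

theorem LD.differentiableAt {r : ℕ} [NeZero r] (f : LD r) : DifferentiableAt ℝ f.toFun 0 :=
  f.smooth'.differentiableAt (by exact_mod_cast NeZero.ne r)

theorem LD.continuousAt {r : ℕ} (f : LD r) : ContinuousAt f.toFun 0 :=
  f.smooth'.continuousAt

theorem LD.tendsto {r : ℕ} (f : LD r) : Tendsto f.toFun (𝓝 0) (𝓝 0) := by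
  have h := f.continuousAt
  unfold ContinuousAt at h
  rwa [f.map_zero'] at h

/-- composition of local diffeomorphisms -/
def LD.comp {r : ℕ} [NeZero r] (f g : LD r) : LD r where
  toFun := f.toFun ∘ g.toFun
  map_zero' := by simp [g.map_zero', f.map_zero']
  smooth' := by
    refine ContDiffAt.comp (0 : ℝ) ?_ g.smooth'
    rw [g.map_zero']
    exact f.smooth'
  deriv_ne' := by
    have hf : DifferentiableAt ℝ f.toFun (g.toFun 0) := by
      rw [g.map_zero']; exact f.differentiableAt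
    rw [deriv_comp (0 : ℝ) hf g.differentiableAt, g.map_zero']
    exact mul_ne_zero f.deriv_ne' g.deriv_ne'

/-- the identity -/
def LD.id (r : ℕ) : LD r where
  toFun := fun x => x
  map_zero' := rfl
  smooth' := contDiffAt_id
  deriv_ne' := by simp

/-- existence of a local inverse -/
theorem LD.exists_inv {r : ℕ} [NeZero r] (f : LD r) : ∃ h : LD r,
    (∀ᶠ x in 𝓝 0, h.toFun (f.toFun x) = x) ∧ (∀ᶠ x in 𝓝 0, f.toFun (h.toFun x) = x) := by
  have hr : (1 : WithTop ℕ∞) ≤ (r : WithTop ℕ∞) := by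
    have : 1 ≤ r := Nat.one_le_iff_ne_zero.mpr (NeZero.ne r)
    exact_mod_cast this
  have hd : HasDerivAt f.toFun (deriv f.toFun 0) 0 := f.differentiableAt.hasDerivAt
  have hfd := hd.hasFDerivAt_equiv f.deriv_ne'
  have hs : HasStrictFDerivAt f.toFun
      ((ContinuousLinearEquiv.unitsEquivAut ℝ (Units.mk0 _ f.deriv_ne') : ℝ ≃L[ℝ] ℝ) :
        ℝ →L[ℝ] ℝ) 0 := by
    refine f.smooth'.hasStrictFDerivAt' hfd ?_
    exact_mod_cast NeZero.ne r
  have hinv : ContDiffAt ℝ r (f.smooth'.localInverse hfd (by exact_mod_cast NeZero.ne r))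
      (f.toFun 0) := f.smooth'.to_localInverse hfd _
  have himg := f.smooth'.localInverse_apply_image hfd (by exact_mod_cast NeZero.ne r)
  have hleft := hs.eventually_left_inverse
  have hright := hs.eventually_right_inverse
  rw [f.map_zero'] at hinv himg hright
  set g : ℝ → ℝ := f.smooth'.localInverse hfd (by exact_mod_cast NeZero.ne r) with hg
  have hleft' : ∀ᶠ x in 𝓝 0, g (f.toFun x) = x := hleft
  have hright' : ∀ᶠ x in 𝓝 0, f.toFun (g x) = x := hright
  have hgd : DifferentiableAt ℝ g 0 :=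
    hinv.differentiableAt (by exact_mod_cast NeZero.ne r)
  refine ⟨⟨g, himg, hinv, ?_⟩, hleft', hright'⟩
  intro h0
  have h1 : HasDerivAt (g ∘ f.toFun) (deriv g 0 * deriv f.toFun 0) 0 := by
    refine HasDerivAt.comp (0 : ℝ) ?_ hd
    rw [f.map_zero']
    exact hgd.hasDerivAt
  have h2 : HasDerivAt (g ∘ f.toFun) 1 0 :=
    (hasDerivAt_id (0 : ℝ)).congr_of_eventuallyEq hleft'
  have h3 := h1.unique h2
  rw [h0] at h3
  simp at h3

theorem GermDiff.mk_eq (r : ℕ) (f g : LD r) :
    GermDiff.mk f = GermDiff.mk g ↔ f.toFun =ᶠ[𝓝 0] g.toFun :=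
  ⟨fun h => Quotient.exact h, fun h => Quotient.sound h⟩

/-- multiplication of germs -/
def GermDiff.mul {r : ℕ} [NeZero r] : GermDiff r → GermDiff r → GermDiff r :=
  Quotient.map₂ LD.comp (by
    intro f f' hf g g' hg
    change f.toFun ∘ g.toFun =ᶠ[𝓝 0] f'.toFun ∘ g'.toFun
    have hf' : f.toFun =ᶠ[𝓝 0] f'.toFun := hf
    have hg' : g.toFun =ᶠ[𝓝 0] g'.toFun := hg
    have h1 := g.tendsto.eventually hf'
    filter_upwards [h1, hg'] with x h2 h3
    simp only [Function.comp]
    rw [h2, h3])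

theorem GermDiff.exists_rep {r : ℕ} (q : GermDiff r) : ∃ f : LD r, GermDiff.mk f = q :=
  ⟨Quotient.out q, Quotient.out_eq q⟩

theorem GermDiff.mul_mk_mk {r : ℕ} [NeZero r] (f g : LD r) :
    GermDiff.mul (GermDiff.mk f) (GermDiff.mk g) = GermDiff.mk (f.comp g) := rfl

/-- inverse of a germ -/
noncomputable def GermDiff.inv {r : ℕ} [NeZero r] (q : GermDiff r) : GermDiff r :=
  GermDiff.mk (Classical.choose (Quotient.out q).exists_inv)

noncomputable instance instGroupGermDiff (r : ℕ) [NeZero r] : Group (GermDiff r) :=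
  letI : Mul (GermDiff r) := ⟨GermDiff.mul⟩
  letI : One (GermDiff r) := ⟨GermDiff.mk (LD.id r)⟩
  letI : Inv (GermDiff r) := ⟨GermDiff.inv⟩
  Group.ofLeftAxioms
    (by
      intro a b c
      obtain ⟨f, rfl⟩ := GermDiff.exists_rep a
      obtain ⟨g, rfl⟩ := GermDiff.exists_rep b
      obtain ⟨h, rfl⟩ := GermDiff.exists_rep c
      rfl)
    (by
      intro a
      obtain ⟨f, rfl⟩ := GermDiff.exists_rep a
      rfl)
    (by
      intro a
      have h3 := Classical.choose_spec (Quotient.out a).exists_inv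
      have h4 : GermDiff.mul (GermDiff.inv a) a =
          GermDiff.mul (GermDiff.mk (Classical.choose (Quotient.out a).exists_inv))
            (GermDiff.mk (Quotient.out a)) := by
        congr 1
        exact (Quotient.out_eq a).symm
      change GermDiff.mul (GermDiff.inv a) a = GermDiff.mk (LD.id r)
      rw [h4, GermDiff.mul_mk_mk, GermDiff.mk_eq]
      exact h3.1)

theorem GermDiff.mk_mul (r : ℕ) [NeZero r] (f g : LD r) :
    ∃ h : LD r, h.toFun = f.toFun ∘ g.toFun ∧ GermDiff.mk f * GermDiff.mk g = GermDiff.mk h :=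
  ⟨f.comp g, rfl, rfl⟩

theorem GermDiff.mk_one (r : ℕ) [NeZero r] (f : LD r) :
    GermDiff.mk f = 1 ↔ ∀ᶠ x in 𝓝 0, f.toFun x = x := by
  have : (1 : GermDiff r) = GermDiff.mk (LD.id r) := rfl
  rw [this, GermDiff.mk_eq]
  rfl

theorem GermDiff.mk_inv (r : ℕ) [NeZero r] (f : LD r) :
    ∃ h : LD r, (GermDiff.mk f)⁻¹ = GermDiff.mk h ∧ (∀ᶠ x in 𝓝 0, h.toFun (f.toFun x) = x) ∧
      (∀ᶠ x in 𝓝 0, f.toFun (h.toFun x) = x) := by
  obtain ⟨h, h1, h2⟩ := f.exists_inv
  refine ⟨h, ?_, h1, h2⟩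
  have h3 : GermDiff.mk h * GermDiff.mk f = 1 := by
    obtain ⟨k, hk, hk'⟩ := GermDiff.mk_mul r h f
    rw [hk', GermDiff.mk_one, hk]
    exact h1
  exact (eq_inv_of_mul_eq_one_left h3).symm

/-! ## Word length -/

section words

variable {G : Type*} [Group G]

theorem wordLen_le (S : Finset G) (l : List G) (hl : ∀ x ∈ l, x ∈ S ∨ x⁻¹ ∈ S) :
    wordLen S l.prod ≤ l.length :=
  Nat.sInf_le ⟨l, rfl, hl, rfl⟩

theorem exists_word (S : Finset G) (h : G) (hh : h ∈ Subgroup.closure (S : Set G)) :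
    ∃ l : List G, l.length = wordLen S h ∧ (∀ x ∈ l, x ∈ S ∨ x⁻¹ ∈ S) ∧ l.prod = h := by
  have hh' : h ∈ Submonoid.closure ((S : Set G) ∪ (S : Set G)⁻¹) := by
    rw [← Subgroup.closure_toSubmonoid]
    exact hh
  obtain ⟨l, hl0, hl'⟩ := Submonoid.exists_list_of_mem_closure hh'
  have hl : ∀ x ∈ l, x ∈ S ∨ x⁻¹ ∈ S := by
    intro x hx
    rcases hl0 x hx with h | h
    · exact Or.inl h
    · exact Or.inr h
  have hne : {n | ∃ l : List G, l.length = n ∧ (∀ x ∈ l, x ∈ S ∨ x⁻¹ ∈ S) ∧ l.prod = h}.Nonempty :=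
    ⟨l.length, l, rfl, hl, hl'⟩
  exact Nat.sInf_mem hne

theorem wordLen_mul_le (S : Finset G) (a b : G) (ha : a ∈ Subgroup.closure (S : Set G))
    (hb : b ∈ Subgroup.closure (S : Set G)) :
    wordLen S (a * b) ≤ wordLen S a + wordLen S b := by
  obtain ⟨l, hl1, hl2, hl3⟩ := exists_word S a ha
  obtain ⟨m, hm1, hm2, hm3⟩ := exists_word S b hb
  have h := wordLen_le S (l ++ m) (by
    intro x hx
    rcases List.mem_append.mp hx with h | h
    · exact hl2 x h
    · exact hm2 x h)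
  rw [List.prod_append, List.length_append, hl3, hm3, hl1, hm1] at h
  exact h

/-- distortion from a sequence of short words -/
theorem distortion_of_words {G : Type*} [Group G] (S : Finset G) (h : G)
    (hS : h ∈ Subgroup.closure (S : Set G)) (N L : ℕ → ℕ) (hN : ∀ j, 0 < N j)
    (hw : ∀ j, ∃ l : List G, l.length ≤ L j ∧ (∀ x ∈ l, x ∈ S ∨ x⁻¹ ∈ S) ∧ l.prod = h ^ N j)
    (hL : Tendsto (fun j => (L j : ℝ) / N j) atTop (𝓝 0)) : IsDistortionElement h := by
  refine ⟨S, hS, ?_⟩
  have hsub : Subadditive (fun n : ℕ => (wordLen S (h ^ n) : ℝ)) := by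
    intro m n
    have := wordLen_mul_le S (h ^ m) (h ^ n) (Subgroup.pow_mem _ hS m) (Subgroup.pow_mem _ hS n)
    rw [← pow_add] at this
    change (wordLen S (h ^ (m + n)) : ℝ) ≤ (wordLen S (h ^ m) : ℝ) + (wordLen S (h ^ n) : ℝ)
    exact_mod_cast this
  have hbdd : BddBelow (range fun n : ℕ => (wordLen S (h ^ n) : ℝ) / n) := by
    refine ⟨0, ?_⟩
    rintro _ ⟨n, rfl⟩
    positivity
  have hlim := hsub.tendsto_lim hbdd
  have h0 : 0 ≤ hsub.lim := by
    refine ge_of_tendsto' hlim (fun n => ?_)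
    positivity
  have h1 : hsub.lim ≤ 0 := by
    refine ge_of_tendsto' hL (fun j => ?_)
    have h2 := hsub.lim_le_div hbdd (n := N j) (hN j).ne'
    refine h2.trans ?_
    obtain ⟨l, hl1, hl2, hl3⟩ := hw j
    have h3 := wordLen_le S l hl2
    rw [hl3] at h3
    have h4 : (wordLen S (h ^ N j) : ℝ) ≤ L j := by exact_mod_cast h3.trans hl1
    have h5 : (0 : ℝ) ≤ N j := by positivity
    exact div_le_div_of_nonneg_right h4 h5
  have h2 : hsub.lim = 0 := le_antisymm h1 h0
  rw [h2] at hlim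
  exact hlim

theorem distortion_conj {G : Type*} [Group G] (h k : G) (hh : IsDistortionElement h) :
    IsDistortionElement (k * h * k⁻¹) := by
  classical
  obtain ⟨S, hS, ht⟩ := hh
  have key : ∀ l : List G, (∀ x ∈ l, x ∈ S ∨ x⁻¹ ∈ S) →
      (∀ x ∈ l.map (MulAut.conj k), x ∈ S.image (MulAut.conj k) ∨
        x⁻¹ ∈ S.image (MulAut.conj k)) := by
    intro l hl x hx
    obtain ⟨y, hy, rfl⟩ := List.mem_map.mp hx
    rcases hl y hy with h1 | h1
    · exact Or.inl (Finset.mem_image_of_mem _ h1)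
    · right
      rw [← map_inv]
      exact Finset.mem_image_of_mem _ h1
  refine ⟨S.image (MulAut.conj k), ?_, ?_⟩
  · have h1 : MulAut.conj k h ∈ (Subgroup.closure (S : Set G)).map (MulAut.conj k).toMonoidHom :=
      Subgroup.mem_map_of_mem _ hS
    rw [MonoidHom.map_closure] at h1
    rw [Finset.coe_image]
    exact h1
  · refine squeeze_zero (fun n => by positivity) (fun n => ?_) ht
    obtain ⟨l, hl1, hl2, hl3⟩ := exists_word S (h ^ n) (Subgroup.pow_mem _ hS n)
    have h3 := wordLen_le (S.image (MulAut.conj k)) (l.map (MulAut.conj k)) (key l hl2)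
    have h4 : (l.map (MulAut.conj k)).prod = (k * h * k⁻¹) ^ n := by
      rw [← map_list_prod, hl3, map_pow]
      rfl
    rw [h4, List.length_map, hl1] at h3
    have h5 : (0 : ℝ) ≤ n := by positivity
    exact div_le_div_of_nonneg_right (by exact_mod_cast h3) h5

end words

end Pool.Agent.Germ
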