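import Pool.Agent.Helper19.Germ.Defs

/-!
R2 of helper19's blueprint for MP_91c48b_an: from half-germs at infinity to germs at `0` (helper89).
-/

open Filter Topology Set

namespace Pool.Agent.Germ

/-! ## Extension of derivatives -/

theorem hasDerivAt_of_tendsto_punctured {f : ℝ → ℝ} {a : ℝ}
    (hd : ∀ᶠ x in 𝓝[≠] (0 : ℝ), DifferentiableAt ℝ f x) (hc : ContinuousAt f 0)
    (hl : Tendsto (deriv f) (𝓝[≠] 0) (𝓝 a)) : HasDerivAt f a 0 := by
  have hgt : Ioi (0 : ℝ) ⊆ {0}ᶜ := fun x hx => ne_of_gt (mem_Ioi.mp hx)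
  have hlt : Iio (0 : ℝ) ⊆ {0}ᶜ := fun x hx => ne_of_lt (mem_Iio.mp hx)
  have h1 : {x | DifferentiableAt ℝ f x} ∈ 𝓝[>] (0 : ℝ) := nhdsWithin_mono 0 hgt hd
  have h2 : {x | DifferentiableAt ℝ f x} ∈ 𝓝[<] (0 : ℝ) := nhdsWithin_mono 0 hlt hd
  have hR : HasDerivWithinAt f a (Ici 0) 0 :=
    hasDerivWithinAt_Ici_of_tendsto_deriv (s := {x | DifferentiableAt ℝ f x})
      (fun x hx => DifferentiableAt.differentiableWithinAt hx) hc.continuousWithinAt h1
      (hl.mono_left (nhdsWithin_mono 0 hgt))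
  have hL : HasDerivWithinAt f a (Iic 0) 0 :=
    hasDerivWithinAt_Iic_of_tendsto_deriv (s := {x | DifferentiableAt ℝ f x})
      (fun x hx => DifferentiableAt.differentiableWithinAt hx) hc.continuousWithinAt h2
      (hl.mono_left (nhdsWithin_mono 0 hlt))
  have := hL.union hR
  rw [Iic_union_Ici] at this
  exact hasDerivWithinAt_univ.mp this

theorem continuousAt_of_punctured {f : ℝ → ℝ} (h : Tendsto f (𝓝[≠] 0) (𝓝 (f 0))) :
    ContinuousAt f 0 := by
  rw [← continuousWithinAt_compl_self]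
  exact h

theorem contDiffAt_two_of_punctured {f : ℝ → ℝ} {a b : ℝ}
    (hd : ∀ᶠ x in 𝓝[≠] (0 : ℝ), ContDiffAt ℝ 2 f x) (hc : ContinuousAt f 0)
    (hl : Tendsto (deriv f) (𝓝[≠] 0) (𝓝 a))
    (hl2 : Tendsto (deriv (deriv f)) (𝓝[≠] 0) (𝓝 b)) :
    ContDiffAt ℝ 2 f 0 ∧ deriv f 0 = a := by
  have hf1 : HasDerivAt f a 0 := hasDerivAt_of_tendsto_punctured
    (hd.mono fun x hx => hx.differentiableAt (by norm_num)) hc hl
  have hda : deriv f 0 = a := hf1.deriv
  have hc1 : ContinuousAt (deriv f) 0 := by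
    refine continuousAt_of_punctured ?_
    rw [hda]; exact hl
  have hd2 : ∀ᶠ x in 𝓝[≠] (0 : ℝ), ContDiffAt ℝ 1 (deriv f) x :=
    hd.mono fun x hx => hx.derivWithin (by norm_num)
  have hf2 : HasDerivAt (deriv f) b 0 := hasDerivAt_of_tendsto_punctured
    (hd2.mono fun x hx => hx.differentiableAt (by norm_num)) hc1 hl2
  have hdb : deriv (deriv f) 0 = b := hf2.deriv
  have hc2 : ContinuousAt (deriv (deriv f)) 0 := by
    refine continuousAt_of_punctured ?_
    rw [hdb]; exact hl2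
  refine ⟨?_, hda⟩
  -- a ball on which everything holds
  have hev : ∀ᶠ x in 𝓝 (0 : ℝ), x ≠ 0 → ContDiffAt ℝ 2 f x := eventually_nhdsWithin_iff.mp hd
  obtain ⟨ε, hε, hball⟩ := Metric.eventually_nhds_iff_ball.mp hev
  have hopen : IsOpen (Metric.ball (0 : ℝ) ε) := Metric.isOpen_ball
  have hon : ContDiffOn ℝ 2 f (Metric.ball 0 ε) := by
    have h1 : ContDiffOn ℝ (1 + 1) f (Metric.ball 0 ε) := by
      rw [contDiffOn_succ_iff_deriv_of_isOpen hopen]
      refine ⟨?_, by simp, ?_⟩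
      · intro x hx
        by_cases hx0 : x = 0
        · subst hx0
          exact hf1.differentiableAt.differentiableWithinAt
        · exact ((hball x hx hx0).differentiableAt (by norm_num)).differentiableWithinAt
      · have h2 : ContDiffOn ℝ (0 + 1) (deriv f) (Metric.ball 0 ε) := by
          rw [contDiffOn_succ_iff_deriv_of_isOpen hopen]
          refine ⟨?_, by simp, ?_⟩
          · intro x hx
            by_cases hx0 : x = 0
            · subst hx0
              exact hf2.differentiableAt.differentiableWithinAt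
            · exact (((hball x hx hx0).derivWithin (m := 1)
                (by norm_num)).differentiableAt (by norm_num)).differentiableWithinAt
          · rw [contDiffOn_zero]
            intro x hx
            by_cases hx0 : x = 0
            · subst hx0
              exact hc2.continuousWithinAt
            · have h3 := (hball x hx hx0).derivWithin (m := 1) (by norm_num)
              exact (h3.derivWithin (m := 0) (by norm_num)).continuousAt.continuousWithinAt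
        simpa using h2
    have : (1 + 1 : WithTop ℕ∞) = 2 := by norm_num
    rwa [this] at h1
  exact hon.contDiffAt (hopen.mem_nhds (Metric.mem_ball_self hε))

/-! ## One side -/

theorem tendsto_div_of_adm {lam c : ℝ} {F : ℝ → ℝ} (hF : Adm lam c F) :
    Tendsto (fun u => F u / u) atTop (𝓝 lam) := by
  have h1 : Tendsto (fun u : ℝ => (F u - lam * u) * u⁻¹ + lam) atTop (𝓝 (c * 0 + lam)) :=
    (hF.lim0.mul tendsto_inv_atTop_zero).add_const lam
  rw [mul_zero, zero_add] at h1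
  refine h1.congr' ?_
  filter_upwards [eventually_gt_atTop 0] with u hu
  field_simp
  ring

theorem tendsto_deriv_of_adm {lam c : ℝ} {F : ℝ → ℝ} (hF : Adm lam c F) :
    Tendsto (deriv F) atTop (𝓝 lam) := by
  have h1 : Tendsto (fun u : ℝ => (u * (deriv F u - lam)) * u⁻¹ + lam) atTop (𝓝 (0 * 0 + lam)) :=
    (hF.lim1.mul tendsto_inv_atTop_zero).add_const lam
  rw [mul_zero, zero_add] at h1
  refine h1.congr' ?_
  filter_upwards [eventually_gt_atTop 0] with u hu
  field_simp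
  ring

theorem tendsto_atTop_of_adm {lam c : ℝ} (hlam : 0 < lam) {F : ℝ → ℝ} (hF : Adm lam c F) :
    Tendsto F atTop atTop := by
  have h1 : Tendsto (fun u : ℝ => (F u - lam * u) + lam * u) atTop atTop :=
    hF.lim0.add_atTop (tendsto_id.const_mul_atTop hlam)
  refine h1.congr fun u => by ring

/-- the function `1 / F (1/x)` -/
noncomputable def invConj (F : ℝ → ℝ) (x : ℝ) : ℝ := (F x⁻¹)⁻¹

theorem invConj_hasDerivAt {F : ℝ → ℝ} {x : ℝ} (hx : 0 < x) (hd : DifferentiableAt ℝ F x⁻¹)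
    (h0 : F x⁻¹ ≠ 0) :
    HasDerivAt (invConj F) ((x⁻¹) ^ 2 * deriv F x⁻¹ / (F x⁻¹) ^ 2) x := by
  have h1 : HasDerivAt (fun y : ℝ => y⁻¹) (-(x ^ 2)⁻¹) x := hasDerivAt_inv hx.ne'
  have h2 : HasDerivAt (fun y : ℝ => F y⁻¹) (deriv F x⁻¹ * (-(x ^ 2)⁻¹)) x :=
    HasDerivAt.comp x hd.hasDerivAt h1
  have h3 := h2.inv h0
  refine h3.congr_deriv ?_
  field_simp

theorem invConj_deriv_hasDerivAt {F : ℝ → ℝ} {x : ℝ} (hx : 0 < x)
    (hev : ∀ᶠ y in 𝓝 x, 0 < y ∧ DifferentiableAt ℝ F y⁻¹ ∧ F y⁻¹ ≠ 0)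
    (hd : DifferentiableAt ℝ F x⁻¹) (hd2 : DifferentiableAt ℝ (deriv F) x⁻¹)
    (h0 : F x⁻¹ ≠ 0) :
    deriv (deriv (invConj F)) x = -((x⁻¹ / F x⁻¹) ^ 2 * (2 * (x⁻¹ * deriv F x⁻¹) +
      (x⁻¹) ^ 2 * deriv (deriv F) x⁻¹ - 2 * (x⁻¹ * deriv F x⁻¹) ^ 2 / F x⁻¹)) := by
  have he : deriv (invConj F) =ᶠ[𝓝 x] fun y => (y⁻¹) ^ 2 * deriv F y⁻¹ / (F y⁻¹) ^ 2 := by
    filter_upwards [hev] with y hy
    exact (invConj_hasDerivAt hy.1 hy.2.1 hy.2.2).deriv
  rw [he.deriv_eq]
  have h1 : HasDerivAt (fun y : ℝ => y⁻¹) (-(x ^ 2)⁻¹) x := hasDerivAt_inv hx.ne'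
  have h2 : HasDerivAt (fun y : ℝ => F y⁻¹) (deriv F x⁻¹ * (-(x ^ 2)⁻¹)) x :=
    HasDerivAt.comp x hd.hasDerivAt h1
  have h3 : HasDerivAt (fun y : ℝ => deriv F y⁻¹) (deriv (deriv F) x⁻¹ * (-(x ^ 2)⁻¹)) x :=
    HasDerivAt.comp x hd2.hasDerivAt h1
  have h4 := ((h1.pow 2).mul h3).div (h2.pow 2) (pow_ne_zero 2 h0)
  have h5 : HasDerivAt (fun y => (y⁻¹) ^ 2 * deriv F y⁻¹ / (F y⁻¹) ^ 2) _ x := h4
  rw [h5.deriv]
  simp only [Pi.pow_apply, Pi.mul_apply]
  generalize deriv (deriv F) x⁻¹ = C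
  generalize deriv F x⁻¹ = B
  generalize F x⁻¹ = A at h0
  push_cast
  field_simp
  ring

theorem invConj_props {lam c : ℝ} (hlam : 0 < lam) {F : ℝ → ℝ} (hF : Adm lam c F) :
    (∀ᶠ x in 𝓝[>] (0 : ℝ), ContDiffAt ℝ 2 (invConj F) x) ∧
    Tendsto (invConj F) (𝓝[>] 0) (𝓝 0) ∧
    Tendsto (deriv (invConj F)) (𝓝[>] 0) (𝓝 (1 / lam)) ∧
    Tendsto (deriv (deriv (invConj F))) (𝓝[>] 0) (𝓝 (-(2 * c / lam ^ 2))) := by
  have hinv : Tendsto (fun x : ℝ => x⁻¹) (𝓝[>] 0) atTop := tendsto_inv_nhdsGT_zero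
  have htop := tendsto_atTop_of_adm hlam hF
  -- everything holds for u large
  have hev : ∀ᶠ u in atTop, ContDiffAt ℝ 2 F u ∧ 0 < F u :=
    hF.smooth.and (htop.eventually_gt_atTop 0)
  obtain ⟨M0, hM0⟩ := eventually_atTop.mp hev
  set M := max M0 1 with hM
  have hM1 : 0 < M := lt_of_lt_of_le one_pos (le_max_right _ _)
  have hgood : ∀ x, 0 < x → x < M⁻¹ → ContDiffAt ℝ 2 F x⁻¹ ∧ 0 < F x⁻¹ := by
    intro x hx hx'
    refine hM0 _ ((le_max_left M0 1).trans ?_)
    rw [← hM]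
    have : M < x⁻¹ := by
      rw [lt_inv_comm₀ hM1 hx]; exact hx'
    exact this.le
  have hnear : ∀ᶠ x in 𝓝[>] (0 : ℝ), 0 < x ∧ x < M⁻¹ := by
    have h1 : Ioo (0 : ℝ) M⁻¹ ∈ 𝓝[>] (0 : ℝ) := Ioo_mem_nhdsGT (inv_pos.mpr hM1)
    filter_upwards [h1] with x hx using hx
  have hgood' : ∀ x, 0 < x → x < M⁻¹ →
      ∀ᶠ y in 𝓝 x, 0 < y ∧ DifferentiableAt ℝ F y⁻¹ ∧ F y⁻¹ ≠ 0 := by
    intro x hx hx'
    filter_upwards [Ioo_mem_nhds hx hx'] with y hy
    obtain ⟨h1, h2⟩ := hgood y hy.1 hy.2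
    exact ⟨hy.1, h1.differentiableAt (by norm_num), h2.ne'⟩
  refine ⟨?_, ?_, ?_, ?_⟩
  · filter_upwards [hnear] with x hx
    obtain ⟨h1, h2⟩ := hgood x hx.1 hx.2
    have h3 : ContDiffAt ℝ 2 (fun y : ℝ => y⁻¹) x := contDiffAt_inv ℝ hx.1.ne'
    have h4 : ContDiffAt ℝ 2 (fun y : ℝ => F y⁻¹) x := ContDiffAt.comp x h1 h3
    exact h4.inv h2.ne'
  · have h1 : Tendsto (fun u => (F u)⁻¹) atTop (𝓝 0) := tendsto_inv_atTop_zero.comp htop
    exact h1.comp hinv
  · have h1 : Tendsto (fun u => deriv F u * ((F u / u) ^ 2)⁻¹) atTop (𝓝 (lam * (lam ^ 2)⁻¹)) :=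
      (tendsto_deriv_of_adm hF).mul (((tendsto_div_of_adm hF).pow 2).inv₀ (by positivity))
    have h2 : lam * (lam ^ 2)⁻¹ = 1 / lam := by field_simp
    rw [h2] at h1
    refine (h1.comp hinv).congr' ?_
    filter_upwards [hnear] with x hx
    obtain ⟨h3, h4⟩ := hgood x hx.1 hx.2
    have h5 := (invConj_hasDerivAt hx.1 (h3.differentiableAt (by norm_num)) h4.ne').deriv
    rw [h5]
    simp only [Function.comp]
    have h6 := hx.1
    field_simp
  · -- second derivative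
    have hr : Tendsto (fun u => (F u / u)⁻¹) atTop (𝓝 lam⁻¹) :=
      (tendsto_div_of_adm hF).inv₀ hlam.ne'
    have hF' := tendsto_deriv_of_adm hF
    have hdiff : Tendsto (fun u => (F u - lam * u) - u * (deriv F u - lam)) atTop (𝓝 (c - 0)) :=
      hF.lim0.sub hF.lim1
    have h1 : Tendsto (fun u => -(((F u / u)⁻¹) ^ 2 *
        (2 * (deriv F u * (F u / u)⁻¹) * ((F u - lam * u) - u * (deriv F u - lam)) +
          u ^ 2 * deriv (deriv F) u))) atTop
        (𝓝 (-((lam⁻¹) ^ 2 * (2 * (lam * lam⁻¹) * (c - 0) + 0)))) :=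
      (((hr.pow 2).mul ((((hF'.mul hr).const_mul 2).mul hdiff).add hF.lim2))).neg
    have h2 : -((lam⁻¹) ^ 2 * (2 * (lam * lam⁻¹) * (c - 0) + 0)) = -(2 * c / lam ^ 2) := by
      field_simp
      ring
    rw [h2] at h1
    refine (h1.comp hinv).congr' ?_
    filter_upwards [hnear] with x hx
    obtain ⟨h3, h4⟩ := hgood x hx.1 hx.2
    have h5 := invConj_deriv_hasDerivAt hx.1 (hgood' x hx.1 hx.2)
      (h3.differentiableAt (by norm_num))
      ((h3.derivWithin (m := 1) (by norm_num)).differentiableAt (by norm_num)) h4.ne'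
    rw [h5]
    simp only [Function.comp]
    have h6 := hx.1
    have h7 := h4.ne'
    generalize deriv (deriv F) x⁻¹ = C
    generalize deriv F x⁻¹ = B
    generalize F x⁻¹ = A at h7
    field_simp
    ring

/-! ## Both sides -/

theorem germFun_zero (F H : ℝ → ℝ) : germFun F H 0 = 0 := by simp [germFun]

theorem germFun_pos (F H : ℝ → ℝ) {x : ℝ} (hx : 0 < x) : germFun F H x = invConj F x := by
  unfold germFun invConj
  rw [if_pos hx, one_div, one_div]

theorem germFun_neg (F H : ℝ → ℝ) {x : ℝ} (hx : x < 0) :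
    germFun F H x = -(invConj H (-x)) := by
  unfold germFun invConj
  rw [if_neg (not_lt.mpr hx.le), if_pos hx, one_div, one_div, inv_neg]

theorem germFun_smooth {lam c : ℝ} (hlam : 0 < lam) {F H : ℝ → ℝ} (hF : Adm lam c F)
    (hH : Adm lam (-c) H) :
    ContDiffAt ℝ 2 (germFun F H) 0 ∧ deriv (germFun F H) 0 = 1 / lam ∧ germFun F H 0 = 0 := by
  obtain ⟨a1, a2, a3, a4⟩ := invConj_props hlam hF
  obtain ⟨b1, b2, b3, b4⟩ := invConj_props hlam hH
  have hP : ∀ x : ℝ, 0 < x → germFun F H =ᶠ[𝓝 x] invConj F := fun x hx => by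
    filter_upwards [Ioi_mem_nhds hx] with y hy using germFun_pos F H hy
  have hN : ∀ x : ℝ, x < 0 → germFun F H =ᶠ[𝓝 x] fun y => -(invConj H (-y)) := fun x hx => by
    filter_upwards [Iio_mem_nhds hx] with y hy using germFun_neg F H hy
  have hdP : ∀ x : ℝ, 0 < x → deriv (germFun F H) x = deriv (invConj F) x :=
    fun x hx => (hP x hx).deriv_eq
  have hdN : ∀ x : ℝ, x < 0 → deriv (germFun F H) x = deriv (invConj H) (-x) := fun x hx => by
    rw [(hN x hx).deriv_eq, deriv.fun_neg, deriv_comp_neg, neg_neg]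
  have hddP : ∀ x : ℝ, 0 < x → deriv (deriv (germFun F H)) x = deriv (deriv (invConj F)) x := by
    intro x hx
    have : deriv (germFun F H) =ᶠ[𝓝 x] deriv (invConj F) := by
      filter_upwards [Ioi_mem_nhds hx] with y hy using hdP y hy
    exact this.deriv_eq
  have hddN : ∀ x : ℝ, x < 0 →
      deriv (deriv (germFun F H)) x = -deriv (deriv (invConj H)) (-x) := by
    intro x hx
    have : deriv (germFun F H) =ᶠ[𝓝 x] fun y => deriv (invConj H) (-y) := by
      filter_upwards [Iio_mem_nhds hx] with y hy using hdN y hy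
    rw [this.deriv_eq, deriv_comp_neg]
  have hnegt : Tendsto (fun x : ℝ => -x) (𝓝[<] 0) (𝓝[>] 0) := by
    have := tendsto_neg_nhdsLT (a := (0 : ℝ))
    rwa [neg_zero] at this
  have hpunct : 𝓝[≠] (0 : ℝ) = 𝓝[<] 0 ⊔ 𝓝[>] 0 := (nhdsLT_sup_nhdsGT (0 : ℝ)).symm
  have h0 : germFun F H 0 = 0 := germFun_zero F H
  have key := contDiffAt_two_of_punctured (f := germFun F H) (a := 1 / lam)
    (b := -(2 * c / lam ^ 2)) ?_ ?_ ?_ ?_
  · exact ⟨key.1, key.2, h0⟩
  · rw [hpunct, eventually_sup]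
    constructor
    · have h1 := hnegt.eventually b1
      filter_upwards [h1, self_mem_nhdsWithin] with x hx hx0
      have h2 : ContDiffAt ℝ 2 (fun y => -(invConj H (-y))) x := by
        have h3 : ContDiffAt ℝ 2 (fun y : ℝ => -y) x := contDiffAt_id.neg
        have h4 : ContDiffAt ℝ 2 (fun y : ℝ => invConj H (-y)) x :=
          ContDiffAt.comp (g := invConj H) x hx h3
        exact h4.neg
      exact h2.congr_of_eventuallyEq (hN x hx0)
    · filter_upwards [a1, self_mem_nhdsWithin] with x hx hx0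
      exact hx.congr_of_eventuallyEq (hP x hx0)
  · refine continuousAt_of_punctured ?_
    rw [h0, hpunct]
    refine Tendsto.sup ?_ ?_
    · have h1 : Tendsto (fun x => -(invConj H (-x))) (𝓝[<] 0) (𝓝 (-0)) := (b2.comp hnegt).neg
      rw [neg_zero] at h1
      refine h1.congr' ?_
      filter_upwards [self_mem_nhdsWithin] with x hx using (germFun_neg F H hx).symm
    · refine a2.congr' ?_
      filter_upwards [self_mem_nhdsWithin] with x hx using (germFun_pos F H hx).symm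
  · rw [hpunct]
    refine Tendsto.sup ?_ ?_
    · refine (b3.comp hnegt).congr' ?_
      filter_upwards [self_mem_nhdsWithin] with x hx using (hdN x hx).symm
    · refine a3.congr' ?_
      filter_upwards [self_mem_nhdsWithin] with x hx using (hdP x hx).symm
  · rw [hpunct]
    refine Tendsto.sup ?_ ?_
    · have h1 : Tendsto (fun x => -(deriv (deriv (invConj H)) (-x))) (𝓝[<] 0)
          (𝓝 (-(-(2 * (-c) / lam ^ 2)))) := (b4.comp hnegt).neg
      have h2 : -(-(2 * (-c) / lam ^ 2)) = -(2 * c / lam ^ 2) := by ring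
      rw [h2] at h1
      refine h1.congr' ?_
      filter_upwards [self_mem_nhdsWithin] with x hx using (hddN x hx).symm
    · refine a4.congr' ?_
      filter_upwards [self_mem_nhdsWithin] with x hx using (hddP x hx).symm

/-- `x - x^2` in the two half-coordinates -/
theorem germFun_quadratic :
    germFun (fun u => u + 1 + 1 / (u - 1)) (fun u => u + (-1) + 1 / (u - (-1))) =ᶠ[𝓝 0]
      (fun x => x - x ^ 2) := by
  have h1 : Ioo (-1 : ℝ) 1 ∈ 𝓝 (0 : ℝ) := Ioo_mem_nhds (by norm_num) (by norm_num)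
  filter_upwards [h1] with x hx
  obtain ⟨hx1, hx2⟩ := hx
  rcases lt_trichotomy x 0 with h | h | h
  · rw [germFun_neg _ _ h]
    unfold invConj
    have h3 : (0 : ℝ) < -x := by linarith
    have h4 : (-x)⁻¹ = -x⁻¹ := inv_neg
    have h5 : x ≠ 0 := h.ne
    have h6 : -x⁻¹ - (-1) ≠ 0 := by
      have : 0 < (-x)⁻¹ := inv_pos.mpr h3
      rw [h4] at this
      linarith
    have h7 : (1 : ℝ) - x ≠ 0 := by linarith
    have h8 : (-x)⁻¹ + -1 + 1 / ((-x)⁻¹ - (-1)) = (-x * (1 - x))⁻¹ := by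
      have h9 : (-x)⁻¹ - (-1) = (1 - x) / (-x) := by field_simp; ring
      rw [h9]
      have : -x ≠ 0 := by linarith
      field_simp
      ring
    beta_reduce
    rw [h8, inv_inv]
    ring
  · subst h
    simp [germFun]
  · rw [germFun_pos _ _ h]
    unfold invConj
    have h5 : x ≠ 0 := h.ne'
    have h7 : (1 : ℝ) - x ≠ 0 := by linarith
    have h8 : x⁻¹ + 1 + 1 / (x⁻¹ - 1) = (x * (1 - x))⁻¹ := by
      have h9 : x⁻¹ - 1 = (1 - x) / x := by field_simp
      rw [h9]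
      field_simp
      ring
    beta_reduce
    rw [h8, inv_inv]
    ring

/-- composition: if `F', H'` tend to `+∞` at `+∞`, `germFun` is compatible with composition -/
theorem germFun_comp (F H F' H' : ℝ → ℝ) (hF' : Tendsto F' atTop atTop)
    (hH' : Tendsto H' atTop atTop) :
    (germFun F H) ∘ (germFun F' H') =ᶠ[𝓝 0] germFun (F ∘ F') (H ∘ H') := by
  have hinv : Tendsto (fun x : ℝ => x⁻¹) (𝓝[>] 0) atTop := tendsto_inv_nhdsGT_zero
  have hnegt : Tendsto (fun x : ℝ => -x) (𝓝[<] 0) (𝓝[>] 0) := by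
    have := tendsto_neg_nhdsLT (a := (0 : ℝ))
    rwa [neg_zero] at this
  have h1 : ∀ᶠ x in 𝓝[>] (0 : ℝ), 0 < F' x⁻¹ := hinv.eventually (hF'.eventually_gt_atTop 0)
  have h2 : ∀ᶠ x in 𝓝[<] (0 : ℝ), 0 < H' (-x)⁻¹ :=
    (hinv.comp hnegt).eventually (hH'.eventually_gt_atTop 0)
  have hpunct : ∀ᶠ x in 𝓝[≠] (0 : ℝ),
      ((germFun F H) ∘ (germFun F' H')) x = germFun (F ∘ F') (H ∘ H') x := by
    rw [(nhdsLT_sup_nhdsGT (0 : ℝ)).symm, eventually_sup]
    constructor
    · filter_upwards [h2, self_mem_nhdsWithin] with x hx hx0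
      have hx0' : x < 0 := hx0
      simp only [Function.comp]
      have h3 : germFun F' H' x = -((H' (-x)⁻¹)⁻¹) := germFun_neg F' H' hx0'
      have h4 : germFun F' H' x < 0 := by
        rw [h3]; exact neg_neg_of_pos (inv_pos.mpr hx)
      rw [germFun_neg _ _ h4, germFun_neg _ _ hx0', germFun_neg _ _ hx0']
      simp [invConj]
    · filter_upwards [h1, self_mem_nhdsWithin] with x hx hx0
      have hx0' : 0 < x := hx0
      simp only [Function.comp]
      have h3 : germFun F' H' x = (F' x⁻¹)⁻¹ := germFun_pos F' H' hx0'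
      have h4 : 0 < germFun F' H' x := by
        rw [h3]; exact inv_pos.mpr hx
      rw [germFun_pos _ _ h4, germFun_pos _ _ hx0', germFun_pos _ _ hx0']
      simp [invConj]
  have h5 := eventually_nhdsWithin_iff.mp hpunct
  filter_upwards [h5] with x hx
  by_cases h0 : x = 0
  · subst h0
    simp [germFun]
  · exact hx h0

theorem germFun_congr (F H F' H' : ℝ → ℝ) (hF : F =ᶠ[atTop] F') (hH : H =ᶠ[atTop] H') :
    germFun F H =ᶠ[𝓝 0] germFun F' H' := by
  have hinv : Tendsto (fun x : ℝ => x⁻¹) (𝓝[>] 0) atTop := tendsto_inv_nhdsGT_zero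
  have hnegt : Tendsto (fun x : ℝ => -x) (𝓝[<] 0) (𝓝[>] 0) := by
    have := tendsto_neg_nhdsLT (a := (0 : ℝ))
    rwa [neg_zero] at this
  have h1 : ∀ᶠ x in 𝓝[>] (0 : ℝ), F x⁻¹ = F' x⁻¹ := hinv.eventually hF
  have h2 : ∀ᶠ x in 𝓝[<] (0 : ℝ), H (-x)⁻¹ = H' (-x)⁻¹ := (hinv.comp hnegt).eventually hH
  have hpunct : ∀ᶠ x in 𝓝[≠] (0 : ℝ), germFun F H x = germFun F' H' x := by
    rw [(nhdsLT_sup_nhdsGT (0 : ℝ)).symm, eventually_sup]
    constructor
    · filter_upwards [h2, self_mem_nhdsWithin] with x hx hx0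
      rw [germFun_neg _ _ hx0, germFun_neg _ _ hx0]
      unfold invConj
      rw [hx]
    · filter_upwards [h1, self_mem_nhdsWithin] with x hx hx0
      rw [germFun_pos _ _ hx0, germFun_pos _ _ hx0]
      unfold invConj
      rw [hx]
  have h5 := eventually_nhdsWithin_iff.mp hpunct
  filter_upwards [h5] with x hx
  by_cases h0 : x = 0
  · subst h0
    simp [germFun]
  · exact hx h0

end Pool.Agent.Germ
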