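import Pool.Agent.Helper19.Germ.StoreCore
import Pool.Agent.Helper89.Germ.R1
import Pool.Agent.Helper89.Germ.R2

/-!
S3 and S4 of helper19's blueprint for MP_91c48b_an: germs represented by pairs of permutations of
the half-lines, and the group-theoretic end of the proof (helper89).
-/

open Filter Topology Set

namespace Pool.Agent.Germ

/-! ## S3 -/

/-- `γ` is represented by the pair `(F, H)` -/
def Rep (γ : GermDiff 2) (F H : Equiv.Perm ℝ) : Prop :=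
  (∃ f : LD 2, γ = GermDiff.mk f ∧ f.toFun =ᶠ[𝓝 0] germFun F H) ∧
    Tendsto F atTop atTop ∧ Tendsto H atTop atTop ∧
    Tendsto (F⁻¹ : Equiv.Perm ℝ) atTop atTop ∧ Tendsto (H⁻¹ : Equiv.Perm ℝ) atTop atTop

theorem tendsto_inv_of_adm {lam c : ℝ} (hlam : 0 < lam) {F : Equiv.Perm ℝ} (hF : Adm lam c F) :
    Tendsto (F⁻¹ : Equiv.Perm ℝ) atTop atTop := by
  obtain ⟨M, hM⟩ := eventually_atTop.1 hF.smooth
  have ht : Tendsto F atTop atTop := tendsto_atTop_of_adm hlam hF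
  rw [tendsto_atTop]
  intro b
  set m := max M b with hm
  have hc : ContinuousOn F (Ici m) := fun x hx =>
    (hM x ((le_max_left _ _).trans hx)).continuousAt.continuousWithinAt
  filter_upwards [eventually_ge_atTop (F m)] with y hy
  obtain ⟨z, hz1, hz2⟩ : ∃ z, m ≤ z ∧ y ≤ F z := by
    obtain ⟨z, hz⟩ := ((eventually_ge_atTop m).and (ht.eventually_ge_atTop y)).exists
    exact ⟨z, hz.1, hz.2⟩
  have h1 := intermediate_value_Icc hz1 (hc.mono Icc_subset_Ici_self)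
  obtain ⟨x, hx1, hx2⟩ := h1 ⟨hy, hz2⟩
  have h2 : (F⁻¹ : Equiv.Perm ℝ) y = x := by
    rw [← hx2]
    exact F.symm_apply_apply x
  rw [h2]
  exact (le_max_right _ _).trans hx1.1

theorem germFun_tendsto {F H : ℝ → ℝ} (hF : Tendsto F atTop atTop) (hH : Tendsto H atTop atTop) :
    Tendsto (germFun F H) (𝓝 0) (𝓝 0) := by
  have hinv : Tendsto (fun x : ℝ => x⁻¹) (𝓝[>] 0) atTop := tendsto_inv_nhdsGT_zero
  have hnegt : Tendsto (fun x : ℝ => -x) (𝓝[<] 0) (𝓝[>] 0) := by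
    have := tendsto_neg_nhdsLT (a := (0 : ℝ))
    rwa [neg_zero] at this
  have h1 : Tendsto (fun x : ℝ => (F x⁻¹)⁻¹) (𝓝[>] 0) (𝓝 0) :=
    tendsto_inv_atTop_zero.comp (hF.comp hinv)
  have h2 : Tendsto (fun x : ℝ => -((H (-x)⁻¹)⁻¹)) (𝓝[<] 0) (𝓝 (-0)) :=
    (tendsto_inv_atTop_zero.comp (hH.comp (hinv.comp hnegt))).neg
  rw [neg_zero] at h2
  have hc : ContinuousAt (germFun F H) 0 := by
    refine continuousAt_of_punctured ?_
    rw [germFun_zero, (nhdsLT_sup_nhdsGT (0 : ℝ)).symm]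
    refine Tendsto.sup ?_ ?_
    · refine h2.congr' ?_
      filter_upwards [self_mem_nhdsWithin] with x hx using (germFun_neg F H hx).symm
    · refine h1.congr' ?_
      filter_upwards [self_mem_nhdsWithin] with x hx using (germFun_pos F H hx).symm
  unfold ContinuousAt at hc
  rwa [germFun_zero] at hc

theorem germFun_id : germFun (fun u => u) (fun u => u) = fun x => x := by
  funext x
  rcases lt_trichotomy x 0 with h | h | h
  · rw [germFun_neg _ _ h]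
    simp [invConj]
  · subst h
    rw [germFun_zero]
  · rw [germFun_pos _ _ h]
    simp [invConj]

theorem Rep.of_adm {lam c : ℝ} (hlam : 0 < lam) {F H : Equiv.Perm ℝ} (hF : Adm lam c F)
    (hH : Adm lam (-c) H) : ∃ γ, Rep γ F H := by
  obtain ⟨h1, h2, h3⟩ := germFun_smooth hlam hF hH
  refine ⟨GermDiff.mk ⟨germFun F H, h3, h1, ?_⟩, ⟨_, rfl, EventuallyEq.rfl⟩,
    tendsto_atTop_of_adm hlam hF, tendsto_atTop_of_adm hlam hH, tendsto_inv_of_adm hlam hF,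
    tendsto_inv_of_adm hlam hH⟩
  rw [h2]
  positivity

theorem Rep.mul {γ γ' : GermDiff 2} {F H F' H' : Equiv.Perm ℝ} (h : Rep γ F H)
    (h' : Rep γ' F' H') : Rep (γ * γ') (F * F') (H * H') := by
  obtain ⟨⟨f, rfl, hf⟩, h1, h2, h3, h4⟩ := h
  obtain ⟨⟨f', rfl, hf'⟩, h1', h2', h3', h4'⟩ := h'
  obtain ⟨k, hk, hk'⟩ := GermDiff.mk_mul 2 f f'
  refine ⟨⟨k, hk', ?_⟩, ?_, ?_, ?_, ?_⟩
  · rw [hk]
    have e1 := germFun_comp F H F' H' h1' h2'
    have e2 : f.toFun ∘ f'.toFun =ᶠ[𝓝 0] (germFun F H) ∘ (germFun F' H') := by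
      filter_upwards [f'.tendsto.eventually hf, hf'] with x hx hx'
      simp only [Function.comp]
      rw [hx, hx']
    exact e2.trans e1
  · exact h1.comp h1'
  · exact h2.comp h2'
  · rw [mul_inv_rev]
    exact h3'.comp h3
  · rw [mul_inv_rev]
    exact h4'.comp h4

theorem Rep.one : Rep 1 1 1 := by
  refine ⟨⟨LD.id 2, rfl, ?_⟩, tendsto_id, tendsto_id, ?_, ?_⟩
  · have : germFun (1 : Equiv.Perm ℝ) (1 : Equiv.Perm ℝ) = fun x => x := germFun_id
    rw [this]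
    exact EventuallyEq.rfl
  · rw [inv_one]; exact tendsto_id
  · rw [inv_one]; exact tendsto_id

theorem Rep.inv {γ : GermDiff 2} {F H : Equiv.Perm ℝ} (h : Rep γ F H) :
    Rep γ⁻¹ F⁻¹ H⁻¹ := by
  obtain ⟨⟨f, rfl, hf⟩, h1, h2, h3, h4⟩ := h
  obtain ⟨k, hk, hk1, hk2⟩ := GermDiff.mk_inv 2 f
  refine ⟨⟨k, hk, ?_⟩, h3, h4, ?_, ?_⟩
  · have e1 := germFun_comp F H (F⁻¹ : Equiv.Perm ℝ) (H⁻¹ : Equiv.Perm ℝ) h3 h4
    have e2 : (F : ℝ → ℝ) ∘ (F⁻¹ : Equiv.Perm ℝ) = fun u => u := by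
      funext u; exact F.apply_symm_apply u
    have e3 : (H : ℝ → ℝ) ∘ (H⁻¹ : Equiv.Perm ℝ) = fun u => u := by
      funext u; exact H.apply_symm_apply u
    rw [e2, e3, germFun_id] at e1
    have ht := germFun_tendsto h3 h4
    filter_upwards [e1, ht.eventually hf, ht.eventually hk1] with x hx hx1 hx2
    rw [← hx2, hx1]
    congr 1
    exact hx.symm
  · rw [inv_inv]; exact h1
  · rw [inv_inv]; exact h2

theorem Rep.pow {γ : GermDiff 2} {F H : Equiv.Perm ℝ} (h : Rep γ F H) (n : ℕ) :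
    Rep (γ ^ n) (F ^ n) (H ^ n) := by
  induction n with
  | zero => simpa using Rep.one
  | succ n ih =>
    rw [pow_succ, pow_succ, pow_succ]
    exact ih.mul h

theorem Rep.comm {γ γ' : GermDiff 2} {F H F' H' : Equiv.Perm ℝ} (h : Rep γ F H)
    (h' : Rep γ' F' H') : Rep (comm γ γ') (comm F F') (comm H H') :=
  ((h.mul h').mul h.inv).mul h'.inv

theorem Rep.W3 {x y : GermDiff 2} {A C : Fin 3 → GermDiff 2} {Fx Hx Fy Hy : Equiv.Perm ℝ}
    {FA HA FC HC : Fin 3 → Equiv.Perm ℝ} (hx : Rep x Fx Hx) (hy : Rep y Fy Hy)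
    (hA : ∀ l, Rep (A l) (FA l) (HA l)) (hC : ∀ l, Rep (C l) (FC l) (HC l)) :
    Rep (W3 x y A C) (W3 Fx Fy FA FC) (W3 Hx Hy HA HC) := by
  have hc : ∀ l, Rep (Germ.comm (x⁻¹ * A l * x) (y⁻¹ * C l * y))
      (Germ.comm (Fx⁻¹ * FA l * Fx) (Fy⁻¹ * FC l * Fy))
      (Germ.comm (Hx⁻¹ * HA l * Hx) (Hy⁻¹ * HC l * Hy)) := fun l =>
    Rep.comm ((hx.inv.mul (hA l)).mul hx) ((hy.inv.mul (hC l)).mul hy)
  exact ((hc 0).mul (hc 1)).mul (hc 2)

theorem Rep.ext {γ γ' : GermDiff 2} {F H F' H' : Equiv.Perm ℝ} (h : Rep γ F H)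
    (h' : Rep γ' F' H') (hF : F =ᶠ[atTop] F') (hH : H =ᶠ[atTop] H') : γ = γ' := by
  obtain ⟨⟨f, rfl, hf⟩, -⟩ := h
  obtain ⟨⟨f', rfl, hf'⟩, -⟩ := h'
  rw [GermDiff.mk_eq]
  exact hf.trans ((germFun_congr F H F' H' hF hH).trans hf'.symm)

/-- conjugacy: `g` the germ of `x - x^2` -/
theorem rep_conj {γ : GermDiff 2} {G₁ G₂ : Equiv.Perm ℝ} (h : Rep γ G₁ G₂) {φ₁ φ₂ : ℝ → ℝ}
    (h1 : Adm 1 0 φ₁) (h2 : Adm 1 0 φ₂)
    (e1 : ∀ᶠ u in atTop, φ₁ (u + 1 + 1 / (u - 1)) = G₁ (φ₁ u))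
    (e2 : ∀ᶠ u in atTop, φ₂ (u + (-1) + 1 / (u - (-1))) = G₂ (φ₂ u))
    (f : LD 2) (hf : f.toFun =ᶠ[𝓝 0] fun x => x - x ^ 2) :
    ∃ k : GermDiff 2, GermDiff.mk f = k * γ * k⁻¹ := by
  obtain ⟨⟨fg, rfl, hfg⟩, -⟩ := h
  have h2' : Adm 1 (-0) φ₂ := by rw [neg_zero]; exact h2
  obtain ⟨s1, s2, s3⟩ := germFun_smooth one_pos h1 h2'
  set ψ : LD 2 := ⟨germFun φ₁ φ₂, s3, s1, by rw [s2]; norm_num⟩ with hψ
  have ht1 : Tendsto φ₁ atTop atTop := tendsto_atTop_of_adm one_pos h1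
  have ht2 : Tendsto φ₂ atTop atTop := tendsto_atTop_of_adm one_pos h2
  have hkey : GermDiff.mk ψ * GermDiff.mk f = GermDiff.mk fg * GermDiff.mk ψ := by
    obtain ⟨a, ha, ha'⟩ := GermDiff.mk_mul 2 ψ f
    obtain ⟨b, hb, hb'⟩ := GermDiff.mk_mul 2 fg ψ
    rw [ha', hb', GermDiff.mk_eq, ha, hb]
    have hg1 : Tendsto (fun u : ℝ => u + 1 + 1 / (u - 1)) atTop atTop := by
      refine tendsto_atTop_mono' atTop (f₁ := fun u : ℝ => u) ?_ tendsto_id
      filter_upwards [eventually_gt_atTop (1 : ℝ)] with u hu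
      have : 0 < 1 / (u - 1) := by
        apply one_div_pos.mpr; linarith
      linarith
    have hg2 : Tendsto (fun u : ℝ => u + (-1) + 1 / (u - (-1))) atTop atTop := by
      refine tendsto_atTop_mono' atTop (f₁ := fun u : ℝ => u + (-1)) ?_
        (tendsto_atTop_add_const_right _ _ tendsto_id)
      filter_upwards [eventually_gt_atTop (1 : ℝ)] with u hu
      have : 0 < 1 / (u - (-1)) := by
        apply one_div_pos.mpr; linarith
      linarith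
    have c1 := germFun_comp φ₁ φ₂ _ _ hg1 hg2
    have c2 := germFun_comp G₁ G₂ φ₁ φ₂ ht1 ht2
    have c3 : ψ.toFun ∘ f.toFun =ᶠ[𝓝 0] germFun φ₁ φ₂ ∘
        germFun (fun u => u + 1 + 1 / (u - 1)) (fun u => u + (-1) + 1 / (u - (-1))) := by
      filter_upwards [hf, germFun_quadratic] with x hx hx'
      simp only [Function.comp]
      rw [hx, hx']
    have c4 : fg.toFun ∘ ψ.toFun =ᶠ[𝓝 0] germFun G₁ G₂ ∘ germFun φ₁ φ₂ := by
      filter_upwards [ψ.tendsto.eventually hfg] with x hx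
      simp only [Function.comp]
      rw [hx]
    have c5 : germFun (φ₁ ∘ fun u => u + 1 + 1 / (u - 1))
        (φ₂ ∘ fun u => u + (-1) + 1 / (u - (-1))) =ᶠ[𝓝 0]
        germFun ((G₁ : ℝ → ℝ) ∘ φ₁) ((G₂ : ℝ → ℝ) ∘ φ₂) :=
      germFun_congr _ _ _ _ e1 e2
    exact c3.trans (c1.trans (c5.trans (c2.symm.trans c4.symm)))
  refine ⟨(GermDiff.mk ψ)⁻¹, ?_⟩
  rw [inv_inv, mul_assoc, ← hkey, ← mul_assoc, inv_mul_cancel, one_mul]

/-! ## S4 : the group-theoretic end of the proof -/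

section Wd

variable {G : Type*} [Group G]

/-- `x` is a product of at most `n` elements of `S` and inverses of elements of `S` -/
def Wd (S : Finset G) (n : ℕ) (x : G) : Prop :=
  ∃ l : List G, l.length ≤ n ∧ (∀ y ∈ l, y ∈ S ∨ y⁻¹ ∈ S) ∧ l.prod = x

theorem Wd.mono {S : Finset G} {n m : ℕ} {x : G} (h : Wd S n x) (hm : n ≤ m) : Wd S m x := by
  obtain ⟨l, h1, h2, h3⟩ := h
  exact ⟨l, h1.trans hm, h2, h3⟩

theorem Wd.of_mem {S : Finset G} {x : G} (h : x ∈ S) : Wd S 1 x :=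
  ⟨[x], le_rfl, by simpa using Or.inl h, by simp⟩

theorem Wd.mul {S : Finset G} {n m : ℕ} {x y : G} (h : Wd S n x) (h' : Wd S m y) :
    Wd S (n + m) (x * y) := by
  obtain ⟨l, h1, h2, h3⟩ := h
  obtain ⟨l', h1', h2', h3'⟩ := h'
  refine ⟨l ++ l', ?_, ?_, ?_⟩
  · rw [List.length_append]; exact Nat.add_le_add h1 h1'
  · intro z hz
    rcases List.mem_append.mp hz with hz | hz
    · exact h2 z hz
    · exact h2' z hz
  · rw [List.prod_append, h3, h3']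

theorem Wd.inv {S : Finset G} {n : ℕ} {x : G} (h : Wd S n x) : Wd S n x⁻¹ := by
  obtain ⟨l, h1, h2, h3⟩ := h
  refine ⟨(l.map (fun z => z⁻¹)).reverse, ?_, ?_, ?_⟩
  · rw [List.length_reverse, List.length_map]; exact h1
  · intro z hz
    rw [List.mem_reverse, List.mem_map] at hz
    obtain ⟨w, hw, rfl⟩ := hz
    rcases h2 w hw with h | h
    · right; rw [inv_inv]; exact h
    · left; exact h
  · rw [← h3, List.prod_inv_reverse]

theorem Wd.pow {S : Finset G} {n : ℕ} {x : G} (h : Wd S n x) (k : ℕ) : Wd S (n * k) (x ^ k) := by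
  induction k with
  | zero => exact ⟨[], by simp, by simp, by simp⟩
  | succ k ih =>
    rw [pow_succ, Nat.mul_succ]
    exact ih.mul h

theorem Wd.conj {S : Finset G} {n m : ℕ} {x y : G} (h : Wd S n x) (h' : Wd S m y) :
    Wd S (2 * m + n) (y⁻¹ * x * y) :=
  ((h'.inv.mul h).mul h').mono (by omega)

theorem Wd.comm {S : Finset G} {n m : ℕ} {x y : G} (h : Wd S n x) (h' : Wd S m y) :
    Wd S (2 * n + 2 * m) (comm x y) :=
  (((h.mul h').mul h.inv).mul h'.inv).mono (by omega)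

theorem Wd.W3 {S : Finset G} {n m : ℕ} {x y : G} {A C : Fin 3 → G} (h : Wd S n x)
    (h' : Wd S m y) (hA : ∀ l, Wd S 1 (A l)) (hC : ∀ l, Wd S 1 (C l)) :
    Wd S (12 * n + 12 * m + 12) (W3 x y A C) := by
  have hc : ∀ l, Wd S (2 * (2 * n + 1) + 2 * (2 * m + 1))
      (Germ.comm (x⁻¹ * A l * x) (y⁻¹ * C l * y)) := fun l =>
    ((hA l).conj h).comm ((hC l).conj h')
  exact (((hc 0).mul (hc 1)).mul (hc 2)).mono (by omega)

end Wd

theorem final_group {G : Type*} [Group G] (g X B d2 d3 d5 : G) (A C A' C' : Fin 3 → G)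
    (h : ∀ s : ℕ, g ^ (4 ^ (s + 1)) = W3 (d3 ^ s) (d5 ^ s) A C *
      W3 (d2 ^ (10 * 3 ^ s)) (d2 ^ (20 * 3 ^ s)) A' C' *
      (d2 ^ (s + 1) * X ^ (2 ^ (s + 1)) * B * (d2 ^ (s + 1))⁻¹)) :
    IsDistortionElement g := by
  classical
  set S : Finset G := {g, X, B, d2, d3, d5} ∪ Finset.univ.image A ∪ Finset.univ.image C ∪
    Finset.univ.image A' ∪ Finset.univ.image C' with hS
  have m1 : ∀ x ∈ ({g, X, B, d2, d3, d5} : Finset G), Wd S 1 x := fun x hx =>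
    Wd.of_mem (by simp only [hS, Finset.mem_union]; tauto)
  have mA : ∀ l, Wd S 1 (A l) := fun l => Wd.of_mem (by
    have := Finset.mem_image_of_mem A (Finset.mem_univ l)
    simp only [hS, Finset.mem_union]; tauto)
  have mC : ∀ l, Wd S 1 (C l) := fun l => Wd.of_mem (by
    have := Finset.mem_image_of_mem C (Finset.mem_univ l)
    simp only [hS, Finset.mem_union]; tauto)
  have mA' : ∀ l, Wd S 1 (A' l) := fun l => Wd.of_mem (by
    have := Finset.mem_image_of_mem A' (Finset.mem_univ l)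
    simp only [hS, Finset.mem_union]; tauto)
  have mC' : ∀ l, Wd S 1 (C' l) := fun l => Wd.of_mem (by
    have := Finset.mem_image_of_mem C' (Finset.mem_univ l)
    simp only [hS, Finset.mem_union]; tauto)
  have mX : Wd S 1 X := m1 X (by simp)
  have mB : Wd S 1 B := m1 B (by simp)
  have m2 : Wd S 1 d2 := m1 d2 (by simp)
  have m3 : Wd S 1 d3 := m1 d3 (by simp)
  have m5 : Wd S 1 d5 := m1 d5 (by simp)
  have hgS : g ∈ S := by simp [hS]
  refine distortion_of_words S g (Subgroup.subset_closure (by exact_mod_cast hgS))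
    (fun s => 4 ^ (s + 1)) (fun s => 1000 * 3 ^ s) (fun s => by positivity) ?_ ?_
  · intro s
    have w1 : Wd S (12 * (1 * s) + 12 * (1 * s) + 12) (W3 (d3 ^ s) (d5 ^ s) A C) :=
      Wd.W3 (m3.pow s) (m5.pow s) mA mC
    have w2 : Wd S (12 * (1 * (10 * 3 ^ s)) + 12 * (1 * (20 * 3 ^ s)) + 12)
        (W3 (d2 ^ (10 * 3 ^ s)) (d2 ^ (20 * 3 ^ s)) A' C') :=
      Wd.W3 (m2.pow _) (m2.pow _) mA' mC'
    have w3 : Wd S (1 * (s + 1) + 1 * 2 ^ (s + 1) + 1 + 1 * (s + 1))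
        (d2 ^ (s + 1) * X ^ (2 ^ (s + 1)) * B * (d2 ^ (s + 1))⁻¹) :=
      (((m2.pow (s + 1)).mul (mX.pow _)).mul mB).mul (m2.pow (s + 1)).inv
    have w4 := (w1.mul w2).mul w3
    rw [← h s] at w4
    have e1 : s + 1 ≤ 3 ^ s := Nat.lt_pow_self (by norm_num)
    have e2 : 2 ^ s ≤ 3 ^ s := Nat.pow_le_pow_left (by norm_num) s
    have e3 : 2 ^ (s + 1) = 2 * 2 ^ s := by rw [pow_succ]; ring
    obtain ⟨l, hl1, hl2, hl3⟩ := w4
    refine ⟨l, hl1.trans ?_, hl2, hl3⟩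
    rw [e3]
    omega
  · have e1 : Tendsto (fun s : ℕ => 250 * ((3 : ℝ) / 4) ^ s) atTop (𝓝 (250 * 0)) :=
      (tendsto_pow_atTop_nhds_zero_of_lt_one (by norm_num) (by norm_num)).const_mul _
    rw [mul_zero] at e1
    refine e1.congr (fun s => ?_)
    push_cast
    rw [div_pow, pow_succ]
    field_simp
    ring

end Pool.Agent.Germ
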